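import Pool.Agent.Lib.TVA.Um

set_option autoImplicit false
set_option linter.unusedSectionVars false

/-! The plateau bound for an abstract family of first members. -/

namespace Pool.Agent.Lib.TVA

open Finset

/-- number of times at which an item is touched -/
noncomputable def cnt (N : ℤ) (A : ℤ → Finset ℤ) (c : ℤ) : ℕ :=
  ((Ioo 0 N).filter fun τ => c ∈ A τ).card

theorem sum_cnt (N : ℤ) (A : ℤ → Finset ℤ) (G : Finset ℤ) :
    ∑ c ∈ G, cnt N A c ≤ ∑ τ ∈ Ioo 0 N, (A τ).card := by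
  unfold cnt
  simp only [card_filter]
  rw [sum_comm]
  refine sum_le_sum fun τ _ => ?_
  rw [← card_filter]
  exact card_le_card fun c hc => (mem_filter.1 hc).2

/-- the abstract family -/
structure Fam (N : ℤ) (d : ℤ → ℤ → ℕ) {ι : Type} (X : Finset ι) (e g : ι → ℤ) (lv al : ι → ℕ)
    (A : ℤ → Finset ℤ) : Prop where
  he : ∀ x ∈ X, 0 < e x ∧ e x < N
  hlv : ∀ x ∈ X, 0 < lv x ∧ lv x < al x
  hw : ∀ x ∈ X, ∃ w, 0 < w ∧ w < N ∧ d (e x) w = lv x
  ht : ∀ x ∈ X, ∃ t, 0 < t ∧ t < N ∧ d (e x) t = al x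
  inj : ∀ x ∈ X, ∀ y ∈ X, g x = g y → lv x = lv y → x = y
  uniq : ∀ x ∈ X, ∀ y ∈ X, lv x = lv y → al x = al y → d (e x) (e y) < lv x → x = y
  ts : ∀ x ∈ X, ∀ u ∈ X, ∀ v ∈ X, lv u = lv x → lv v = lv x → al u = al v → al x < al u →
    e u < e x → e x < e v → d (e u) (e x) < al x → d (e v) (e x) < al x →
    ∃ τ, 0 < τ ∧ τ < N ∧ d τ (e x) = al u ∧ g x ∈ A τ

section
variable {N : ℤ} {d : ℤ → ℤ → ℕ} {ι : Type} {X : Finset ι} {e g : ι → ℤ} {lv al : ι → ℕ}
  {A : ℤ → Finset ℤ}

theorem Fam.mono (F : Fam N d X e g lv al A) {Y : Finset ι} (h : Y ⊆ X) :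
    Fam N d Y e g lv al A :=
  ⟨fun x hx => F.he x (h hx), fun x hx => F.hlv x (h hx), fun x hx => F.hw x (h hx),
    fun x hx => F.ht x (h hx), fun x hx y hy => F.inj x (h hx) y (h hy),
    fun x hx y hy => F.uniq x (h hx) y (h hy),
    fun x hx u hu v hv => F.ts x (h hx) u (h hu) v (h hv)⟩

/-- the parts of level `b` -/
noncomputable def KK (d : ℤ → ℤ → ℕ) (X : Finset ι) (e : ι → ℤ) (lv : ι → ℕ) (b : ℕ) : Finset ℤ :=
  (X.filter fun x => lv x = b).image fun x => kap d b (e x)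

noncomputable def pos (d : ℤ → ℤ → ℕ) (X : Finset ι) (e : ι → ℤ) (lv : ι → ℕ) (x : ι) : ℕ :=
  rk (KK d X e lv (lv x)) (kap d (lv x) (e x))

noncomputable def w1 (d : ℤ → ℤ → ℕ) (K : Finset ℤ) (a : ℕ) (c : ℤ) : ℕ :=
  (K.filter fun y => kap d a y < c).card

noncomputable def w2 (d : ℤ → ℤ → ℕ) (K : Finset ℤ) (a : ℕ) (c : ℤ) : ℕ :=
  (K.filter fun y => kap d a y ≤ c).card

noncomputable def SS (d : ℤ → ℤ → ℕ) (X : Finset ι) (e : ι → ℤ) (lv al : ι → ℕ) (b a : ℕ)
    (c : ℤ) : Finset ℕ :=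
  (X.filter fun x => lv x = b ∧ al x = a ∧ kap d a (e x) = c).image (pos d X e lv)

/-- `x` is surrounded at level `j` in its window -/
def SurX (d : ℤ → ℤ → ℕ) (X : Finset ι) (e : ι → ℤ) (lv al : ι → ℕ) (j : ℕ) (x : ι) : Prop :=
  Sur (SS d X e lv al (lv x) (al x) (kap d (al x) (e x)))
    (w1 d (KK d X e lv (lv x)) (al x) (kap d (al x) (e x)))
    (w2 d (KK d X e lv (lv x)) (al x) (kap d (al x) (e x))) j (pos d X e lv x)

theorem Fam.memK (F : Fam N d X e g lv al A) (h : UM N d) {b : ℕ} {y : ℤ}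
    (hy : y ∈ KK d X e lv b) : 0 < y ∧ y < N ∧ ∃ x ∈ X, lv x = b ∧ kap d b (e x) = y ∧
      d (e x) y < b := by
  obtain ⟨x, hx, rfl⟩ := mem_image.1 hy
  obtain ⟨x1, x2⟩ := mem_filter.1 hx
  obtain ⟨e1, e2⟩ := F.he x x1
  obtain ⟨a1, a2, a3⟩ := h.kap_spec (k := b) (x2 ▸ (F.hlv x x1).1) e1 e2
  exact ⟨a1, by omega, x, x1, x2, rfl, a3 _ le_rfl a2⟩

theorem kap_memK {x : ι} (hx : x ∈ X) : kap d (lv x) (e x) ∈ KK d X e lv (lv x) :=
  mem_image.2 ⟨x, mem_filter.2 ⟨hx, rfl⟩, rfl⟩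

theorem Fam.win (F : Fam N d X e g lv al A) (h : UM N d) {x : ι} (hx : x ∈ X) {a : ℕ}
    (ha : lv x ≤ a) (c : ℤ) :
    (w1 d (KK d X e lv (lv x)) a c ≤ pos d X e lv x ∧
      pos d X e lv x < w2 d (KK d X e lv (lv x)) a c) ↔ kap d a (e x) = c := by
  have hb := (F.hlv x hx).1
  obtain ⟨e1, e2⟩ := F.he x hx
  have hm : ∀ y ∈ KK d X e lv (lv x), ∀ y' ∈ KK d X e lv (lv x), y ≤ y' →
      kap d a y ≤ kap d a y' := fun y hy y' hy' o =>
    h.kap_mono (by omega) (F.memK h hy).1 o (F.memK h hy').2.1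
  have k1 := rk_lt_iff (KK d X e lv (lv x)) (fun y => kap d a y < c)
    (fun y hy y' hy' o p => lt_of_le_of_lt (hm y hy y' hy' o) p) (kap_memK hx)
  have k2 := rk_lt_iff (KK d X e lv (lv x)) (fun y => kap d a y ≤ c)
    (fun y hy y' hy' o p => le_trans (hm y hy y' hy' o) p) (kap_memK hx)
  rw [h.kap_kap hb ha e1 e2] at k1 k2
  unfold w1 w2 pos
  omega

theorem Fam.pos_lt (F : Fam N d X e g lv al A) (h : UM N d) {x y : ι} (hx : x ∈ X) (hy : y ∈ X)
    (hl : lv x = lv y) (hp : pos d X e lv x < pos d X e lv y) : e x < e y := by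
  unfold pos at hp
  rw [← hl, rk_lt_rk _ (kap_memK hx)] at hp
  by_contra hn
  have := h.kap_mono (F.hlv x hx).1 (F.he y hy).1 (not_lt.1 hn) (F.he x hx).2
  omega

theorem Fam.pos_inj (F : Fam N d X e g lv al A) (h : UM N d) {x y : ι} (hx : x ∈ X) (hy : y ∈ X)
    (hl : lv x = lv y) (ha : al x = al y) (hp : pos d X e lv x = pos d X e lv y) : x = y := by
  refine F.uniq x hx y hy hl ha (h.kap_near (F.hlv x hx).1 (F.he x hx).1 (F.he x hx).2
    (F.he y hy).1 (F.he y hy).2 ?_)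
  unfold pos at hp
  have k1 := rk_lt_rk (KK d X e lv (lv x)) (c' := kap d (lv x) (e y)) (kap_memK hx)
  have k2 := rk_lt_rk (KK d X e lv (lv y)) (c' := kap d (lv y) (e x)) (kap_memK hy)
  rw [← hl] at hp k2
  omega

theorem Fam.cardK (F : Fam N d X e g lv al A) (h : UM N d) (b : ℕ) :
    (KK d X e lv b).card * (2 ^ (b / 20)) ^ 4 ≤ 16 * N.toNat := by
  refine h.c3 (KK d X e lv b) id b _ 16 (fun y hy => ⟨(F.memK h hy).1, (F.memK h hy).2.1⟩)
    fun y hy => ?_
  obtain ⟨y1, y2, x, hx, hb, -, hd⟩ := F.memK h hy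
  obtain ⟨e1, e2⟩ := F.he x hx
  obtain ⟨w, a1, a2, a3⟩ := F.hw x hx
  have b0 : 0 < b := hb ▸ (F.hlv x hx).1
  have k1 := h.q4 e1 e2 a1 a2 (by omega)
  rw [a3, hb, h.ball_eq e1 e2 y1 y2 hd.le] at k1
  have k2 := h.four_parts b0 y1 y2 ((KK d X e lv b).filter fun y' => d (id y) (id y') ≤ b) (by
    intro c hc
    obtain ⟨c0, c1⟩ := mem_filter.1 hc
    obtain ⟨z1, z2, x', hx', -, hk, hd'⟩ := F.memK h c0
    obtain ⟨f1, f2⟩ := F.he x' hx'
    have := h.ultra y c (e x') y1 y2 z1 z2 f1 f2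
    have := h.symm c (e x') z1 z2 f1 f2
    simp only [id] at c1
    exact ⟨e x', f1, f2, by omega, hk⟩)
  calc _ ≤ 4 * (4 * (ball N d y b).card) := Nat.mul_le_mul k2 k1
    _ = _ := by simp only [id]; ring

open Classical in
theorem Fam.free (F : Fam N d X e g lv al A) (h : UM N d) (a : ℕ) :
    (X.filter fun x => (∀ j, ¬ SurX d X e lv al j x) ∧ al x = a).card * 2 ^ (a / 20) ≤
      2560 * N.toNat := by
  refine h.c3 _ e a _ 2560 (fun x hx => F.he x (mem_filter.1 hx).1) fun x hx => ?_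
  obtain ⟨x1, -, x3⟩ := mem_filter.1 hx
  obtain ⟨e1, e2⟩ := F.he x x1
  obtain ⟨t, t1, t2, t3⟩ := F.ht x x1
  have a0 : 0 < a := by have := F.hlv x x1; omega
  have k1 := h.q4 e1 e2 t1 t2 (by omega)
  rw [t3, x3] at k1
  generalize hs : (ball N d (e x) a).card = s at k1 ⊢
  have q0 : 0 < 2 ^ (a / 20) := by positivity
  have s0 : s ≠ 0 := by
    rintro rfl
    have : 0 < (2 ^ (a / 20)) ^ 4 := by positivity
    omega
  set Y := (X.filter fun x => (∀ j, ¬ SurX d X e lv al j x) ∧ al x = a).filter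
    fun x' => d (e x) (e x') ≤ a with hY
  have memY : ∀ y ∈ Y, y ∈ X ∧ (∀ j, ¬ SurX d X e lv al j y) ∧ al y = a ∧ d (e x) (e y) ≤ a := by
    intro y hy
    obtain ⟨y1, y2⟩ := mem_filter.1 hy
    obtain ⟨y3, y4, y5⟩ := mem_filter.1 y1
    exact ⟨y3, y4, y5, y2⟩
  have k2 : (Y.image fun y => kap d a (e y)).card ≤ 4 := by
    refine h.four_parts a0 e1 e2 _ fun c hc => ?_
    obtain ⟨y, hy, rfl⟩ := mem_image.1 hc
    obtain ⟨y1, -, -, y4⟩ := memY y hy
    exact ⟨e y, (F.he y y1).1, (F.he y y1).2, y4, rfl⟩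
  have k3 := card_le_mul_card_image_of_maps_to (s := Y)
    (t := range a ×ˢ Y.image fun y => kap d a (e y)) (f := fun y => (lv y, kap d a (e y))) (by
      intro y hy
      obtain ⟨y1, -, y3, -⟩ := memY y hy
      have := F.hlv y y1
      exact mem_product.2 ⟨mem_range.2 (by simp only; omega), mem_image_of_mem _ hy⟩)
    (8 * 2 ^ (Nat.log 4 s + 1)) (by
      rintro ⟨b, c⟩ hbc
      obtain ⟨-, hc⟩ := mem_product.1 hbc
      obtain ⟨y0, hy0, hc0⟩ := mem_image.1 hc
      obtain ⟨z1, -, -, z4⟩ := memY y0 hy0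
      simp only at hc0
      refine le_trans ?_ (quad_free (SS d X e lv al b a c) (w1 d (KK d X e lv b) a c)
        (w2 d (KK d X e lv b) a c) (Nat.log 4 s + 1) ?_ ?_)
      · refine card_le_card_of_injOn (pos d X e lv) (fun y hy => ?_) fun y hy y' hy' hp => ?_
        · obtain ⟨y1, y2⟩ := mem_filter.1 (mem_coe.1 hy)
          obtain ⟨y3, y4, y5, -⟩ := memY y y1
          obtain ⟨rfl, rfl⟩ := Prod.mk.inj y2
          subst y5
          exact mem_coe.2 (mem_filter.2
            ⟨mem_image_of_mem _ (mem_filter.2 ⟨y3, rfl, rfl, rfl⟩), y4⟩)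
        · obtain ⟨y1, y2⟩ := mem_filter.1 (mem_coe.1 hy)
          obtain ⟨y3, y4⟩ := mem_filter.1 (mem_coe.1 hy')
          obtain ⟨p1, -, p2, -⟩ := memY y y1
          obtain ⟨p3, -, p4, -⟩ := memY y' y3
          exact F.pos_inj h p1 p3 ((Prod.mk.inj y2).1.trans (Prod.mk.inj y4).1.symm)
            (by omega) hp
      · intro p hp
        obtain ⟨y, hy, rfl⟩ := mem_image.1 hp
        obtain ⟨y1, rfl, y3, y4⟩ := mem_filter.1 hy
        exact (F.win h y1 (by have := F.hlv y y1; omega) c).2 y4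
      · have hsub : (KK d X e lv b).filter (fun y => kap d a y ≤ c) ⊆
            (KK d X e lv b).filter (fun y => kap d a y < c) ∪ ball N d (e x) a := by
          intro y hy
          obtain ⟨y1, y2⟩ := mem_filter.1 hy
          by_cases o : kap d a y < c
          · exact mem_union_left _ (mem_filter.2 ⟨y1, o⟩)
          · obtain ⟨p1, p2, -⟩ := F.memK h y1
            obtain ⟨f1, f2⟩ := F.he y0 z1
            have := h.kap_near a0 f1 f2 p1 p2 (by omega)
            have := h.ultra (e x) (e y0) y e1 e2 f1 f2 p1 p2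
            exact mem_union_right _ (mem_ball.2 ⟨⟨p1, p2⟩, by omega⟩)
        have c1 := le_trans (card_le_card hsub) (card_union_le _ _)
        have c2 := Nat.lt_pow_succ_log_self (b := 4) (by norm_num) s
        unfold w1 w2
        simp only [Nat.succ_eq_add_one] at c2
        omega)
  rw [card_product, card_range] at k3
  have k4 : a ≤ 20 * 2 ^ (a / 20) := by
    have := Nat.lt_two_pow_self (n := a / 20)
    omega
  have k5 : (2 ^ (Nat.log 4 s + 1)) ^ 2 ≤ 4 * s := by
    have := Nat.pow_log_le_self 4 s0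
    rw [← pow_mul, mul_comm, pow_mul, pow_succ]
    norm_num
    omega
  generalize 2 ^ (Nat.log 4 s + 1) = J at k3 k5
  generalize 2 ^ (a / 20) = q at k1 k4 q0 ⊢
  have k6 : q ^ 2 * J ≤ 4 * s := by
    refine (Nat.pow_le_pow_iff_left (n := 2) (by norm_num)).1 ?_
    calc (q ^ 2 * J) ^ 2 = q ^ 4 * J ^ 2 := by ring
      _ ≤ 4 * s * (4 * s) := Nat.mul_le_mul k1 k5
      _ = _ := by ring
  calc Y.card * q ≤ 8 * J * (20 * q * 4) * q :=
        Nat.mul_le_mul_right _ (le_trans k3 (Nat.mul_le_mul_left _ (Nat.mul_le_mul k4 k2)))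
    _ = 640 * (q ^ 2 * J) := by ring
    _ ≤ 640 * (4 * s) := Nat.mul_le_mul_left _ k6
    _ = _ := by ring

open Classical in
theorem Fam.sur (F : Fam N d X e g lv al A) (h : UM N d) (b r j : ℕ)
    (hr : ∀ x ∈ X, lv x = b → cnt N A (g x) < r) :
    (X.filter fun x => lv x = b ∧ SurX d X e lv al j x ∧
      ∀ j' < j, ¬ SurX d X e lv al j' x).card * 2 ^ (j / 1) ≤ (KK d X e lv b).card * r := by
  set Z := X.filter fun x => lv x = b ∧ SurX d X e lv al j x ∧
      ∀ j' < j, ¬ SurX d X e lv al j' x with hZ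
  have h4 : 0 < 4 ^ j := by positivity
  have insj : ∀ x ∈ Z, Ins (w1 d (KK d X e lv (lv x)) (al x) (kap d (al x) (e x)))
      (w2 d (KK d X e lv (lv x)) (al x) (kap d (al x) (e x))) j (pos d X e lv x / 4 ^ j) :=
    fun x hx => Ins.down (by rw [← div_succ]; exact (mem_filter.1 hx).2.2.1.1)
  have k1 := card_le_mul_card_image_of_maps_to (s := Z)
    (t := range ((KK d X e lv b).card / 4 ^ j)) (f := fun x => pos d X e lv x / 4 ^ j) (by
      intro x hx
      have i2 := (insj x hx).2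
      rw [(mem_filter.1 hx).2.1] at i2
      have : w2 d (KK d X e lv b) (al x) (kap d (al x) (e x)) ≤ (KK d X e lv b).card :=
        card_filter_le _ _
      exact mem_range.2 ((Nat.le_div_iff_mul_le h4).2 (le_trans i2 this))) (2 ^ j * r) (by
      intro i _
      rcases (Z.filter fun x => pos d X e lv x / 4 ^ j = i).eq_empty_or_nonempty with he | hne
      · rw [he]
        simp
      obtain ⟨x, hx, hmin⟩ := exists_min_image _ al hne
      obtain ⟨x1, x2⟩ := mem_filter.1 hx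
      obtain ⟨x3, x4, x5, -⟩ := mem_filter.1 x1
      have c1 : ((Z.filter fun x => pos d X e lv x / 4 ^ j = i).image al).card ≤ r := by
        have hs : ((Z.filter fun x => pos d X e lv x / 4 ^ j = i).image al) ⊆ insert (al x)
            (((Ioo 0 N).filter fun τ => g x ∈ A τ).image fun τ => d τ (e x)) := by
          intro a ha
          obtain ⟨y, hy, rfl⟩ := mem_image.1 ha
          by_cases o : al y = al x
          · rw [o]
            exact mem_insert_self _ _
          have o2 := hmin y hy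
          obtain ⟨y1, y2⟩ := mem_filter.1 hy
          obtain ⟨y3, y4, ⟨-, ⟨pu, hu, u1, u2⟩, pv, hv, v1, v2⟩, -⟩ := mem_filter.1 y1
          obtain ⟨u, hu', rfl⟩ := mem_image.1 hu
          obtain ⟨v, hv', rfl⟩ := mem_image.1 hv
          obtain ⟨u3, u4, u5, -⟩ := mem_filter.1 hu'
          obtain ⟨v3, v4, v5, -⟩ := mem_filter.1 hv'
          have big : pos d X e lv y / 4 ^ (j + 1) = pos d X e lv x / 4 ^ (j + 1) := by
            rw [div_succ, div_succ, y2, x2]
          have near : ∀ z ∈ X, lv z = lv y →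
              pos d X e lv z / 4 ^ (j + 1) = pos d X e lv y / 4 ^ (j + 1) →
              d (e z) (e x) < al x := by
            intro z hz z1 z2
            have i1 := x5.1
            rw [← big, ← z2, x4, ← y4, ← z1] at i1
            have l1 := F.hlv x x3
            exact h.kap_near (by omega) (F.he z hz).1 (F.he z hz).2 (F.he x x3).1 (F.he x x3).2
              ((F.win h hz (by omega) _).1 i1.mem)
          obtain ⟨τ, t1, t2, t3, t4⟩ := F.ts x x3 u u3 v v3 (by omega) (by omega) (by omega)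
            (by omega)
            (F.pos_lt h u3 x3 (by omega) (Nat.lt_of_div_lt_div (c := 4 ^ j) (by omega)))
            (F.pos_lt h x3 v3 (by omega) (Nat.lt_of_div_lt_div (c := 4 ^ j) (by omega)))
            (near u u3 u4 u1) (near v v3 v4 v1)
          exact mem_insert_of_mem (mem_image.2 ⟨τ, mem_filter.2 ⟨mem_Ioo.2 ⟨t1, t2⟩, t4⟩,
            by omega⟩)
        have c2 := le_trans (card_le_card hs) (card_insert_le _ _)
        have c3 := card_image_le (s := (Ioo 0 N).filter fun τ => g x ∈ A τ)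
          (f := fun τ => d τ (e x))
        have c4 := hr x x3 x4
        unfold cnt at c4
        omega
      refine le_trans (card_le_mul_card_image (f := al) _ (2 ^ j) fun a ha => ?_)
        (Nat.mul_le_mul_left _ c1)
      obtain ⟨y, hy, rfl⟩ := mem_image.1 ha
      obtain ⟨y1, y2⟩ := mem_filter.1 hy
      obtain ⟨y3, y4, -, -⟩ := mem_filter.1 y1
      have iy := insj y y1
      refine le_trans ?_ (quad_block (SS d X e lv al (lv y) (al y) (kap d (al y) (e y))) _ _ j _ iy)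
      refine card_le_card_of_injOn (pos d X e lv) (fun z hz => ?_) fun z hz z' hz' hp => ?_
      · obtain ⟨z1, z2⟩ := mem_filter.1 (mem_coe.1 hz)
        obtain ⟨z3, z4⟩ := mem_filter.1 z1
        obtain ⟨z5, z6, -, z7⟩ := mem_filter.1 z3
        have l1 := F.hlv z z5
        have i1 := iy
        rw [y2, ← z4, y4, ← z6] at i1
        have kz : kap d (al y) (e z) = kap d (al y) (e y) :=
          (F.win h z5 (by omega) _).1 i1.mem
        refine mem_coe.2 (mem_filter.2 ⟨mem_image_of_mem _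
          (mem_filter.2 ⟨z5, by omega, z2, kz⟩), by omega, fun j' hj => ?_⟩)
        have := z7 j' hj
        unfold SurX at this
        rwa [z2, kz, z6, ← y4] at this
      · obtain ⟨z1, z2⟩ := mem_filter.1 (mem_coe.1 hz)
        obtain ⟨z5, z6, -, -⟩ := mem_filter.1 (mem_filter.1 z1).1
        obtain ⟨p1, p2⟩ := mem_filter.1 (mem_coe.1 hz')
        obtain ⟨p5, p6, -, -⟩ := mem_filter.1 (mem_filter.1 p1).1
        exact F.pos_inj h z5 p5 (by omega) (by omega) hp)
  rw [card_range] at k1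
  have k2 := Nat.div_mul_le_self (KK d X e lv b).card (4 ^ j)
  have k3 : 4 ^ j = 2 ^ j * 2 ^ j := mul_pow 2 2 j
  rw [Nat.div_one]
  calc Z.card * 2 ^ j ≤ 2 ^ j * r * ((KK d X e lv b).card / 4 ^ j) * 2 ^ j :=
        Nat.mul_le_mul_right _ k1
    _ = (KK d X e lv b).card / 4 ^ j * (2 ^ j * 2 ^ j) * r := by ring
    _ ≤ _ := by rw [← k3]; exact Nat.mul_le_mul_right _ k2

theorem card_le_levels (Y : Finset ι) (f : ι → ℕ) (m K c : ℕ) (hm : 0 < m)
    (hf : ∀ b, c * (Y.filter fun x => f x = b).card * 2 ^ (b / m) ≤ K) :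
    c * Y.card ≤ 2 * m * K := by
  rw [card_eq_sum_card_fiberwise (f := f) (s := Y) (t := range (Y.sup f + 1))
    fun x hx => mem_coe.2 (mem_range.2 (Nat.lt_succ_of_le (le_sup (f := f) (mem_coe.1 hx)))),
    mul_sum]
  exact sum_geo m K _ hm _ hf

theorem Fam.uncharged (F : Fam N d X e g lv al A) (h : UM N d) (R : ℕ)
    (hr : ∀ x ∈ X, cnt N A (g x) < R * 2 ^ (lv x / 20)) :
    X.card ≤ (1280 * R + 102400) * N.toNat := by
  classical
  have h1 := card_le_levels (X.filter fun x => ∀ j, ¬ SurX d X e lv al j x) al 20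
    (2560 * N.toNat) 1 (by norm_num) fun a => by
      rw [one_mul, filter_filter]
      exact F.free h a
  have h2 := card_le_levels (X.filter fun x => ¬ ∀ j, ¬ SurX d X e lv al j x) lv 20
    (32 * R * N.toNat) 1 (by norm_num) fun b => by
      have k1 := card_le_levels ((X.filter fun x => ¬ ∀ j, ¬ SurX d X e lv al j x).filter
        fun x => lv x = b) (fun x => if hx : ∃ j, SurX d X e lv al j x then Nat.find hx else 0) 1
        ((KK d X e lv b).card * (R * 2 ^ (b / 20))) 1 (by norm_num) fun j => by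
          rw [one_mul]
          refine le_trans (Nat.mul_le_mul_right _ (card_le_card fun x hx => ?_))
            (F.sur h b _ j fun x hx hb => hb ▸ hr x hx)
          obtain ⟨x1, x2⟩ := mem_filter.1 hx
          obtain ⟨x3, x4⟩ := mem_filter.1 x1
          obtain ⟨x5, x6⟩ := mem_filter.1 x3
          have hex : ∃ j, SurX d X e lv al j x := by
            by_contra hn
            exact x6 fun j hj => hn ⟨j, hj⟩
          rw [dif_pos hex] at x2
          exact mem_filter.2 ⟨x5, x4, x2 ▸ Nat.find_spec hex,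
            fun j' hj => Nat.find_min hex (x2 ▸ hj)⟩
      have k2 := F.cardK h b
      have q0 : 0 < 2 ^ (b / 20) := by positivity
      generalize 2 ^ (b / 20) = q at k1 k2 q0 ⊢
      have k3 : q ^ 2 ≤ q ^ 4 := Nat.pow_le_pow_right q0 (by norm_num)
      calc _ ≤ 2 * 1 * ((KK d X e lv b).card * (R * q)) * q := Nat.mul_le_mul_right _ k1
        _ = 2 * R * ((KK d X e lv b).card * q ^ 2) := by ring
        _ ≤ 2 * R * (16 * N.toNat) :=
          Nat.mul_le_mul_left _ (le_trans (Nat.mul_le_mul_left _ k3) k2)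
        _ = _ := by ring
  have h3 := card_filter_add_card_filter_not (s := X) fun x => ∀ j, ¬ SurX d X e lv al j x
  calc X.card ≤ 2 * 20 * (2560 * N.toNat) + 2 * 20 * (32 * R * N.toNat) := by omega
    _ = _ := by ring

/-- the plateau bound -/
theorem first_bound (R : ℕ) (h : UM N d) (F : Fam N d X e g lv al A) :
    R * X.card ≤ (1280 * R ^ 2 + 102400 * R) * N.toNat + 40 * ∑ τ ∈ Ioo 0 N, (A τ).card := by
  classical
  have h1 := (F.mono (filter_subset (fun x => cnt N A (g x) < R * 2 ^ (lv x / 20)) X)).uncharged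
    h R fun x hx => (mem_filter.1 hx).2
  have h2 := card_le_levels (X.filter fun x => ¬ cnt N A (g x) < R * 2 ^ (lv x / 20)) lv 20
    (∑ τ ∈ Ioo 0 N, (A τ).card) R (by norm_num) fun b => by
      set Y := (X.filter fun x => ¬ cnt N A (g x) < R * 2 ^ (lv x / 20)).filter
        fun x => lv x = b with hY
      have k1 : ∀ x ∈ Y, x ∈ X ∧ lv x = b ∧ R * 2 ^ (b / 20) ≤ cnt N A (g x) := by
        intro x hx
        obtain ⟨x1, x2⟩ := mem_filter.1 hx
        obtain ⟨x3, x4⟩ := mem_filter.1 x1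
        exact ⟨x3, x2, x2 ▸ not_lt.1 x4⟩
      have k2 := card_nsmul_le_sum Y (fun x => cnt N A (g x)) _ fun x hx => (k1 x hx).2.2
      have k3 : ∑ c ∈ Y.image g, cnt N A c = ∑ x ∈ Y, cnt N A (g x) :=
        sum_image fun x hx y hy e => F.inj x (k1 x hx).1 y (k1 y hy).1 e
          ((k1 x hx).2.1.trans (k1 y hy).2.1.symm)
      have k4 := sum_cnt N A (Y.image g)
      rw [smul_eq_mul] at k2
      calc R * Y.card * 2 ^ (b / 20) = Y.card * (R * 2 ^ (b / 20)) := by ring
        _ ≤ _ := by omega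
  have h3 := card_filter_add_card_filter_not (s := X)
    fun x => cnt N A (g x) < R * 2 ^ (lv x / 20)
  have h4 := Nat.mul_le_mul_left R h1
  rw [← h3, mul_add]
  have h5 : R * ((1280 * R + 102400) * N.toNat) = (1280 * R ^ 2 + 102400 * R) * N.toNat := by
    ring
  omega

end

end Pool.Agent.Lib.TVA
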