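import Mathlib

set_option autoImplicit false

/-! Surrounded points in four-ary blocks, and two summation lemmas. -/

namespace Pool.Agent.Lib.TVA

open Finset

/-- the block number `i` of size `4 ^ j` lies in `[r1, r2)` -/
def Ins (r1 r2 j i : ℕ) : Prop := r1 ≤ i * 4 ^ j ∧ (i + 1) * 4 ^ j ≤ r2

/-- `p` is surrounded at level `j` -/
def Sur (S : Finset ℕ) (r1 r2 j p : ℕ) : Prop :=
  Ins r1 r2 (j + 1) (p / 4 ^ (j + 1)) ∧
    (∃ u ∈ S, u / 4 ^ (j + 1) = p / 4 ^ (j + 1) ∧ u / 4 ^ j < p / 4 ^ j) ∧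
    ∃ v ∈ S, v / 4 ^ (j + 1) = p / 4 ^ (j + 1) ∧ p / 4 ^ j < v / 4 ^ j

theorem div_succ (p j : ℕ) : p / 4 ^ (j + 1) = p / 4 ^ j / 4 := by
  rw [Nat.div_div_eq_div_mul, pow_succ]

theorem Ins.down {r1 r2 j c : ℕ} (h : Ins r1 r2 (j + 1) (c / 4)) : Ins r1 r2 j c := by
  obtain ⟨h1, h2⟩ := h
  rw [pow_succ] at h1 h2
  have e1 : c / 4 * 4 ≤ c := Nat.div_mul_le_self c 4
  have e2 : c + 1 ≤ (c / 4 + 1) * 4 := by omega
  have k1 := Nat.mul_le_mul_right (4 ^ j) e1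
  have k2 := Nat.mul_le_mul_right (4 ^ j) e2
  constructor
  · calc r1 ≤ c / 4 * (4 ^ j * 4) := h1
      _ = c / 4 * 4 * 4 ^ j := by ring
      _ ≤ _ := k1
  · calc (c + 1) * 4 ^ j ≤ (c / 4 + 1) * 4 * 4 ^ j := k2
      _ = (c / 4 + 1) * (4 ^ j * 4) := by ring
      _ ≤ _ := h2

theorem Ins.mem {r1 r2 j p : ℕ} (h : Ins r1 r2 j (p / 4 ^ j)) : r1 ≤ p ∧ p < r2 := by
  have h4 : 0 < 4 ^ j := by positivity
  have e1 := Nat.div_mul_le_self p (4 ^ j)
  have e2 : p < (p / 4 ^ j + 1) * 4 ^ j := by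
    rw [mul_comm]
    exact Nat.lt_mul_div_succ p h4
  exact ⟨le_trans h.1 e1, lt_of_lt_of_le e2 h.2⟩

open Classical in
theorem quad_block (S : Finset ℕ) (r1 r2 : ℕ) : ∀ j i : ℕ, Ins r1 r2 j i →
    (S.filter fun p => p / 4 ^ j = i ∧ ∀ j' < j, ¬ Sur S r1 r2 j' p).card ≤ 2 ^ j := by
  intro j
  induction j with
  | zero =>
    intro i _
    refine card_le_one.2 fun a ha b hb => ?_
    have h1 := (mem_filter.1 ha).2.1
    have h2 := (mem_filter.1 hb).2.1
    simp at h1 h2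
    omega
  | succ j ih =>
    intro i hi
    rcases (S.filter fun p => p / 4 ^ (j + 1) = i).eq_empty_or_nonempty with he | hne
    · have : (S.filter fun p => p / 4 ^ (j + 1) = i ∧ ∀ j' < j + 1, ¬ Sur S r1 r2 j' p) = ∅ := by
        refine eq_empty_of_forall_notMem fun p hp => ?_
        have : p ∈ S.filter fun p => p / 4 ^ (j + 1) = i :=
          mem_filter.2 ⟨(mem_filter.1 hp).1, (mem_filter.1 hp).2.1⟩
        rw [he] at this
        simp at this
      rw [this]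
      simp
    obtain ⟨u, hu, hmin⟩ := exists_min_image _ (fun p => p / 4 ^ j) hne
    obtain ⟨v, hv, hmax⟩ := exists_max_image _ (fun p => p / 4 ^ j) hne
    obtain ⟨hu1, hu2⟩ := mem_filter.1 hu
    obtain ⟨hv1, hv2⟩ := mem_filter.1 hv
    have iu : Ins r1 r2 j (u / 4 ^ j) := Ins.down (by rw [← div_succ, hu2]; exact hi)
    have iv : Ins r1 r2 j (v / 4 ^ j) := Ins.down (by rw [← div_succ, hv2]; exact hi)
    have hs : (S.filter fun p => p / 4 ^ (j + 1) = i ∧ ∀ j' < j + 1, ¬ Sur S r1 r2 j' p) ⊆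
        (S.filter fun p => p / 4 ^ j = u / 4 ^ j ∧ ∀ j' < j, ¬ Sur S r1 r2 j' p) ∪
        (S.filter fun p => p / 4 ^ j = v / 4 ^ j ∧ ∀ j' < j, ¬ Sur S r1 r2 j' p) := by
      intro p hp
      obtain ⟨hp1, hp2, hp3⟩ := mem_filter.1 hp
      have k1 := hmin p (mem_filter.2 ⟨hp1, hp2⟩)
      have k2 := hmax p (mem_filter.2 ⟨hp1, hp2⟩)
      have hn := hp3 j (Nat.lt_succ_self j)
      have hr : ∀ j' < j, ¬ Sur S r1 r2 j' p := fun j' h => hp3 j' (by omega)
      by_cases e1 : p / 4 ^ j = u / 4 ^ j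
      · exact mem_union_left _ (mem_filter.2 ⟨hp1, e1, hr⟩)
      by_cases e2 : p / 4 ^ j = v / 4 ^ j
      · exact mem_union_right _ (mem_filter.2 ⟨hp1, e2, hr⟩)
      exact absurd ⟨hp2 ▸ hi, ⟨u, hu1, by rw [hu2, hp2], by omega⟩,
        v, hv1, by rw [hv2, hp2], by omega⟩ hn
    have h1 := card_le_card hs
    have h2 := card_union_le
      (S.filter fun p => p / 4 ^ j = u / 4 ^ j ∧ ∀ j' < j, ¬ Sur S r1 r2 j' p)
      (S.filter fun p => p / 4 ^ j = v / 4 ^ j ∧ ∀ j' < j, ¬ Sur S r1 r2 j' p)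
    have h3 := ih _ iu
    have h4 := ih _ iv
    rw [pow_succ 2 j]
    omega

open Classical in
theorem quad_free (S : Finset ℕ) (r1 r2 J : ℕ) (hS : ∀ p ∈ S, r1 ≤ p ∧ p < r2)
    (hJ : r2 - r1 < 4 ^ J) : (S.filter fun p => ∀ j, ¬ Sur S r1 r2 j p).card ≤ 8 * 2 ^ J := by
  have hj : ∀ j, (S.filter fun p => (∀ j, ¬ Sur S r1 r2 j p) ∧ Ins r1 r2 j (p / 4 ^ j) ∧
      ¬ Ins r1 r2 (j + 1) (p / 4 ^ (j + 1))).card ≤ 8 * 2 ^ j := by
    intro j
    have h4 : 0 < 4 ^ (j + 1) := by positivity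
    have key := card_le_mul_card_image_of_maps_to
      (s := S.filter fun p => (∀ j, ¬ Sur S r1 r2 j p) ∧ Ins r1 r2 j (p / 4 ^ j) ∧
        ¬ Ins r1 r2 (j + 1) (p / 4 ^ (j + 1)))
      (t := (Ico (4 * (r1 / 4 ^ (j + 1))) (4 * (r1 / 4 ^ (j + 1)) + 4) ∪
        Ico (4 * (r2 / 4 ^ (j + 1))) (4 * (r2 / 4 ^ (j + 1)) + 4)).filter (Ins r1 r2 j))
      (f := fun p => p / 4 ^ j) (by
        intro p hp
        obtain ⟨hp1, -, hp3, hp4⟩ := mem_filter.1 hp
        obtain ⟨k1, k2⟩ := hS p hp1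
        have e1 := Nat.div_mul_le_self p (4 ^ (j + 1))
        have e2 : p < (p / 4 ^ (j + 1) + 1) * 4 ^ (j + 1) := by
          rw [mul_comm]
          exact Nat.lt_mul_div_succ p h4
        refine mem_filter.2 ⟨?_, hp3⟩
        have hd := div_succ p j
        have : r1 / 4 ^ (j + 1) = p / 4 ^ (j + 1) ∨ r2 / 4 ^ (j + 1) = p / 4 ^ (j + 1) := by
          unfold Ins at hp4
          by_cases c : r1 ≤ p / 4 ^ (j + 1) * 4 ^ (j + 1)
          · right
            exact Nat.div_eq_of_lt_le (by omega) (by omega)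
          · left
            exact Nat.div_eq_of_lt_le (by omega) (by omega)
        simp only [mem_union, mem_Ico]
        omega) (2 ^ j) (by
        intro i hi
        refine le_trans (card_le_card ?_) (quad_block S r1 r2 j i (mem_filter.1 hi).2)
        intro p hp
        obtain ⟨hp1, hp2⟩ := mem_filter.1 hp
        obtain ⟨hp3, hp4, -⟩ := mem_filter.1 hp1
        exact mem_filter.2 ⟨hp3, hp2, fun j' _ => hp4 j'⟩)
    have c1 := card_filter_le (Ico (4 * (r1 / 4 ^ (j + 1))) (4 * (r1 / 4 ^ (j + 1)) + 4) ∪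
        Ico (4 * (r2 / 4 ^ (j + 1))) (4 * (r2 / 4 ^ (j + 1)) + 4)) (Ins r1 r2 j)
    have c2 := card_union_le (Ico (4 * (r1 / 4 ^ (j + 1))) (4 * (r1 / 4 ^ (j + 1)) + 4))
        (Ico (4 * (r2 / 4 ^ (j + 1))) (4 * (r2 / 4 ^ (j + 1)) + 4))
    simp only [Nat.card_Ico, Nat.add_sub_cancel_left] at c2
    calc _ ≤ _ := key
      _ ≤ 2 ^ j * 8 := Nat.mul_le_mul_left _ (by omega)
      _ = _ := mul_comm _ _
  have hs : (S.filter fun p => ∀ j, ¬ Sur S r1 r2 j p) ⊆ (range J).biUnion fun j =>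
      S.filter fun p => (∀ j, ¬ Sur S r1 r2 j p) ∧ Ins r1 r2 j (p / 4 ^ j) ∧
        ¬ Ins r1 r2 (j + 1) (p / 4 ^ (j + 1)) := by
    intro p hp
    obtain ⟨hp1, hp2⟩ := mem_filter.1 hp
    obtain ⟨k1, k2⟩ := hS p hp1
    have hn : ¬ Ins r1 r2 J (p / 4 ^ J) := by
      rintro ⟨a1, a2⟩
      rw [add_mul, one_mul] at a2
      omega
    have h0 : Ins r1 r2 0 (p / 4 ^ 0) := by
      unfold Ins
      simp only [pow_zero, Nat.div_one, mul_one]
      omega
    have hex : ∃ j, ¬ Ins r1 r2 j (p / 4 ^ j) := ⟨J, hn⟩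
    have f1 := Nat.find_spec hex
    have f2 := Nat.find_min' hex hn
    obtain ⟨j, hj⟩ : ∃ j, Nat.find hex = j + 1 := by
      refine Nat.exists_eq_succ_of_ne_zero fun h => ?_
      rw [h] at f1
      exact f1 h0
    have f3 := Nat.find_min hex (m := j) (by omega)
    rw [hj] at f1 f2
    exact mem_biUnion.2 ⟨j, mem_range.2 (by omega), mem_filter.2 ⟨hp1, hp2, not_not.1 f3, f1⟩⟩
  refine le_trans (card_le_card hs) (le_trans card_biUnion_le (le_trans (sum_le_sum fun j _ => hj j) ?_))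
  rw [← mul_sum]
  refine Nat.mul_le_mul_left _ ?_
  exact (Nat.geomSum_lt le_rfl fun k hk => mem_range.1 hk).le

/-- summation against a geometric weight with step `m` -/
theorem sum_geo (m K B : ℕ) (hm : 0 < m) (f : ℕ → ℕ) (hf : ∀ b, f b * 2 ^ (b / m) ≤ K) :
    ∑ b ∈ range B, f b ≤ 2 * m * K := by
  have h1 : ∀ c : ℕ, (∑ b ∈ range (c * m), (f b : ℝ)) ≤ 2 * m * K * (1 - (1 / 2) ^ c) := by
    intro c
    induction c with
    | zero => simp
    | succ c ih =>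
      rw [add_mul, one_mul, sum_range_add]
      have h2 : ∀ i ∈ range m, (f (c * m + i) : ℝ) ≤ K * (1 / 2) ^ c := by
        intro i hi
        have e : (c * m + i) / m = c := by
          rw [mul_comm, Nat.mul_add_div hm, Nat.div_eq_of_lt (mem_range.1 hi), add_zero]
        have h3 := hf (c * m + i)
        rw [e] at h3
        have h4 : (f (c * m + i) : ℝ) * 2 ^ c ≤ K := by exact_mod_cast h3
        rw [one_div, inv_pow, ← div_eq_mul_inv, le_div_iff₀ (by positivity)]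
        exact h4
      have h5 := sum_le_sum h2
      rw [sum_const, card_range, nsmul_eq_mul] at h5
      have : (2 : ℝ) * m * K * (1 - (1 / 2) ^ (c + 1)) =
          2 * m * K * (1 - (1 / 2) ^ c) + m * (K * (1 / 2) ^ c) := by ring
      linarith
  have h2 : ∑ b ∈ range B, f b ≤ ∑ b ∈ range (B * m), f b :=
    sum_le_sum_of_subset (range_mono (Nat.le_mul_of_pos_right B hm))
  have h3 : (∑ b ∈ range (B * m), (f b : ℝ)) ≤ 2 * m * K := by
    refine le_trans (h1 B) ?_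
    have : (0 : ℝ) ≤ 2 * m * K * (1 / 2) ^ B := by positivity
    linarith
  have h4 : ∑ b ∈ range (B * m), f b ≤ 2 * m * K := by exact_mod_cast h3
  omega

end Pool.Agent.Lib.TVA
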