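import Pool.Agent.Lib.TVA.Quad

set_option autoImplicit false

/-! Binary ultrametrics on an interval of keys: balls, interval parts, counting. -/

namespace Pool.Agent.Lib.TVA

open Finset

/-- the ball of radius `k` -/
noncomputable def ball (N : ℤ) (d : ℤ → ℤ → ℕ) (u : ℤ) (k : ℕ) : Finset ℤ :=
  (Ioo 0 N).filter fun v => d u v ≤ k

/-- a binary ultrametric with large balls made of at most two intervals -/
structure UM (N : ℤ) (d : ℤ → ℤ → ℕ) : Prop where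
  refl : ∀ u, 0 < u → u < N → d u u = 0
  symm : ∀ u v, 0 < u → u < N → 0 < v → v < N → d u v = d v u
  ultra : ∀ u v w, 0 < u → u < N → 0 < v → v < N → 0 < w → w < N →
    d u w ≤ max (d u v) (d v w)
  bin : ∀ u v w, 0 < u → u < N → 0 < v → v < N → 0 < w → w < N →
    d u v = d u w → 0 < d u v → d v w < d u v
  big : ∀ u v, 0 < u → u < N → 0 < v → v < N → 0 < d u v →
    2 ^ (d u v / 5) ≤ 4 * (ball N d u (d u v)).card
  two : ∀ u k, 0 < u → u < N → ∃ l1 l2 l3 l4 : ℤ, ∀ v, 0 < v → v < N →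
    (d u v ≤ k ↔ l1 < v ∧ v < l4 ∧ ¬ (l2 < v ∧ v < l3))

variable {N : ℤ} {d : ℤ → ℤ → ℕ}

theorem mem_ball {u v : ℤ} {k : ℕ} : v ∈ ball N d u k ↔ (0 < v ∧ v < N) ∧ d u v ≤ k := by
  simp [ball]

theorem UM.ball_eq (h : UM N d) {u v : ℤ} {k : ℕ} (u1 : 0 < u) (u2 : u < N) (v1 : 0 < v)
    (v2 : v < N) (huv : d u v ≤ k) : ball N d u k = ball N d v k := by
  ext w
  simp only [mem_ball]
  constructor
  · rintro ⟨⟨w1, w2⟩, hw⟩
    have := h.ultra v u w v1 v2 u1 u2 w1 w2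
    have := h.symm u v u1 u2 v1 v2
    exact ⟨⟨w1, w2⟩, by omega⟩
  · rintro ⟨⟨w1, w2⟩, hw⟩
    have := h.ultra u v w u1 u2 v1 v2 w1 w2
    exact ⟨⟨w1, w2⟩, by omega⟩

/-- counting ball by ball -/
theorem UM.c3 (h : UM N d) {ι : Type} (Y : Finset ι) (f : ι → ℤ) (k lam C : ℕ)
    (hf : ∀ x ∈ Y, 0 < f x ∧ f x < N)
    (hc : ∀ x ∈ Y, (Y.filter fun x' => d (f x) (f x') ≤ k).card * lam ≤
      C * (ball N d (f x) k).card) : Y.card * lam ≤ C * N.toNat := by
  classical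
  rw [card_eq_sum_card_image (fun x => ball N d (f x) k) Y, sum_mul]
  have h1 : ∀ B ∈ Y.image (fun x => ball N d (f x) k),
      (Y.filter fun x => ball N d (f x) k = B).card * lam ≤ C * B.card := by
    intro B hB
    obtain ⟨x, hx, rfl⟩ := mem_image.1 hB
    refine le_trans (Nat.mul_le_mul_right _ (card_le_card fun y hy => ?_)) (hc x hx)
    obtain ⟨hy1, hy2⟩ := mem_filter.1 hy
    refine mem_filter.2 ⟨hy1, ?_⟩
    have : f y ∈ ball N d (f y) k :=
      mem_ball.2 ⟨hf y hy1, by rw [h.refl _ (hf y hy1).1 (hf y hy1).2]; omega⟩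
    rw [hy2] at this
    exact (mem_ball.1 this).2
  refine le_trans (sum_le_sum h1) ?_
  rw [← mul_sum]
  refine Nat.mul_le_mul_left _ ?_
  have h2 := card_biUnion (s := Y.image (fun x => ball N d (f x) k)) (t := id) (by
    intro B hB B' hB' hne
    obtain ⟨x, hx, rfl⟩ := mem_image.1 (mem_coe.1 hB)
    obtain ⟨y, hy, rfl⟩ := mem_image.1 (mem_coe.1 hB')
    refine disjoint_left.2 fun v hv hv' => hne ?_
    obtain ⟨⟨v1, v2⟩, k1⟩ := mem_ball.1 hv
    obtain ⟨-, k2⟩ := mem_ball.1 hv'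
    rw [h.ball_eq (hf x hx).1 (hf x hx).2 v1 v2 k1, h.ball_eq (hf y hy).1 (hf y hy).2 v1 v2 k2])
  simp only [id] at h2
  rw [← h2]
  have h3 : (Y.image (fun x => ball N d (f x) k)).biUnion (fun B => B) ⊆ Ioo 0 N := by
    intro v hv
    obtain ⟨B, hB, hv⟩ := mem_biUnion.1 hv
    obtain ⟨x, hx, rfl⟩ := mem_image.1 hB
    exact mem_Ioo.2 (mem_ball.1 hv).1
  refine le_trans (card_le_card h3) ?_
  rw [Int.card_Ioo]
  omega

theorem UM.q4 (h : UM N d) {u v : ℤ} (u1 : 0 < u) (u2 : u < N) (v1 : 0 < v) (v2 : v < N)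
    (hp : 0 < d u v) : (2 ^ (d u v / 20)) ^ 4 ≤ 4 * (ball N d u (d u v)).card := by
  refine le_trans ?_ (h.big u v u1 u2 v1 v2 hp)
  rw [← pow_mul]
  exact Nat.pow_le_pow_right (by norm_num) (by omega)

/-- left end of the interval part of the open ball of radius `k` that contains `e` -/
noncomputable def kap (d : ℤ → ℤ → ℕ) (k : ℕ) (e : ℤ) : ℤ :=
  sInf {y : ℤ | 0 < y ∧ y ≤ e ∧ ∀ y', y ≤ y' → y' ≤ e → d e y' < k}

theorem kap_le {k : ℕ} {e y : ℤ} (y1 : 0 < y) (y2 : y ≤ e)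
    (hy : ∀ y', y ≤ y' → y' ≤ e → d e y' < k) : kap d k e ≤ y :=
  csInf_le ⟨0, fun _ hz => hz.1.le⟩ ⟨y1, y2, hy⟩

theorem UM.kap_spec (h : UM N d) {k : ℕ} {e : ℤ} (hk : 0 < k) (e1 : 0 < e) (e2 : e < N) :
    0 < kap d k e ∧ kap d k e ≤ e ∧ ∀ y', kap d k e ≤ y' → y' ≤ e → d e y' < k := by
  refine Int.csInf_mem (s := {y : ℤ | 0 < y ∧ y ≤ e ∧ ∀ y', y ≤ y' → y' ≤ e → d e y' < k})
    ⟨e, e1, le_rfl, fun y' a b => ?_⟩ ⟨0, fun _ hz => hz.1.le⟩
  rw [le_antisymm b a, h.refl e e1 e2]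
  exact hk

theorem UM.kap_mono (h : UM N d) {k : ℕ} {u v : ℤ} (hk : 0 < k) (u1 : 0 < u) (uv : u ≤ v)
    (v2 : v < N) : kap d k u ≤ kap d k v := by
  obtain ⟨a1, a2, a3⟩ := h.kap_spec hk u1 (by omega : u < N)
  obtain ⟨b1, b2, b3⟩ := h.kap_spec hk (by omega : 0 < v) v2
  by_cases c : kap d k v ≤ u
  · refine kap_le b1 c fun y y1 y2 => ?_
    have := h.ultra u v y u1 (by omega) (by omega) v2 (by omega) (by omega)
    have := h.symm u v u1 (by omega) (by omega) v2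
    have := b3 u c uv
    have := b3 y y1 (by omega)
    omega
  · omega

theorem UM.kap_eq (h : UM N d) {k : ℕ} {u v : ℤ} (hk : 0 < k) (u1 : 0 < u) (uv : u ≤ v)
    (v2 : v < N) (c : kap d k v ≤ u) : kap d k u = kap d k v := by
  refine le_antisymm (h.kap_mono hk u1 uv v2) ?_
  obtain ⟨a1, a2, a3⟩ := h.kap_spec hk u1 (by omega : u < N)
  obtain ⟨b1, b2, b3⟩ := h.kap_spec hk (by omega : 0 < v) v2
  refine kap_le a1 (by omega) fun y y1 y2 => ?_
  by_cases c2 : y ≤ u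
  · have := h.ultra v u y (by omega) v2 u1 (by omega) (by omega) (by omega)
    have := b3 u c uv
    have := a3 y y1 c2
    omega
  · exact b3 y (by omega) y2

theorem UM.kap_near (h : UM N d) {k : ℕ} {u v : ℤ} (hk : 0 < k) (u1 : 0 < u) (u2 : u < N)
    (v1 : 0 < v) (v2 : v < N) (c : kap d k u = kap d k v) : d u v < k := by
  obtain ⟨a1, a2, a3⟩ := h.kap_spec hk u1 u2
  obtain ⟨b1, b2, b3⟩ := h.kap_spec hk v1 v2
  rcases le_total u v with c2 | c2
  · rw [h.symm u v u1 u2 v1 v2]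
    exact b3 u (by omega) c2
  · exact a3 v (by omega) c2

theorem UM.kap_kap (h : UM N d) {b k : ℕ} {e : ℤ} (hb : 0 < b) (hk : b ≤ k) (e1 : 0 < e)
    (e2 : e < N) : kap d k (kap d b e) = kap d k e := by
  obtain ⟨a1, a2, a3⟩ := h.kap_spec hb e1 e2
  exact h.kap_eq (by omega) a1 a2 e2
    (kap_le a1 a2 fun y y1 y2 => lt_of_lt_of_le (a3 y y1 y2) hk)

theorem UM.two_parts (h : UM N d) {k : ℕ} {u : ℤ} (hk : 0 < k) (u1 : 0 < u) (u2 : u < N)
    (K : Finset ℤ) (hK : ∀ c ∈ K, ∃ v, 0 < v ∧ v < N ∧ d u v < k ∧ kap d k v = c) :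
    K.card ≤ 2 := by
  classical
  obtain ⟨l1, l2, l3, l4, hl⟩ := h.two u (k - 1) u1 u2
  have key : ∀ v v', 0 < v → v ≤ v' → v' < N → d u v < k → d u v' < k →
      (v ≤ l2 ↔ v' ≤ l2) → kap d k v = kap d k v' := by
    intro v v' v1 vv v2 a a' c
    refine h.kap_eq hk v1 vv v2 (kap_le v1 vv fun y y1 y2 => ?_)
    have k1 := (hl v v1 (by omega)).1 (by omega)
    have k2 := (hl v' (by omega) v2).1 (by omega)
    have k3 := (hl y (by omega) (by omega)).2 (by omega)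
    have := h.ultra v' u y (by omega) v2 u1 u2 (by omega) (by omega)
    have := h.symm u v' u1 u2 (by omega) v2
    omega
  have key2 : ∀ v v', 0 < v → v < N → 0 < v' → v' < N → d u v < k → d u v' < k →
      (v ≤ l2 ↔ v' ≤ l2) → kap d k v = kap d k v' := by
    intro v v' v1 v2 w1 w2 a a' c
    rcases le_total v v' with o | o
    · exact key v v' v1 o w2 a a' c
    · exact (key v' v w1 o v2 a' a c.symm).symm
  have hs : K ⊆ (K.filter fun c => ∃ v, 0 < v ∧ v < N ∧ d u v < k ∧ kap d k v = c ∧ v ≤ l2) ∪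
      K.filter fun c => ∃ v, 0 < v ∧ v < N ∧ d u v < k ∧ kap d k v = c ∧ l2 < v := by
    intro c hc
    obtain ⟨v, v1, v2, a, e⟩ := hK c hc
    by_cases o : v ≤ l2
    · exact mem_union_left _ (mem_filter.2 ⟨hc, v, v1, v2, a, e, o⟩)
    · exact mem_union_right _ (mem_filter.2 ⟨hc, v, v1, v2, a, e, by omega⟩)
  have h1 : (K.filter fun c =>
      ∃ v, 0 < v ∧ v < N ∧ d u v < k ∧ kap d k v = c ∧ v ≤ l2).card ≤ 1 := by
    refine card_le_one.2 fun c hc c' hc' => ?_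
    obtain ⟨v, v1, v2, a, e, o⟩ := (mem_filter.1 hc).2
    obtain ⟨v', w1, w2, a', e', o'⟩ := (mem_filter.1 hc').2
    rw [← e, ← e']
    exact key2 v v' v1 v2 w1 w2 a a' (by omega)
  have h2 : (K.filter fun c =>
      ∃ v, 0 < v ∧ v < N ∧ d u v < k ∧ kap d k v = c ∧ l2 < v).card ≤ 1 := by
    refine card_le_one.2 fun c hc c' hc' => ?_
    obtain ⟨v, v1, v2, a, e, o⟩ := (mem_filter.1 hc).2
    obtain ⟨v', w1, w2, a', e', o'⟩ := (mem_filter.1 hc').2
    rw [← e, ← e']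
    exact key2 v v' v1 v2 w1 w2 a a' (by omega)
  have h3 := le_trans (card_le_card hs) (card_union_le _ _)
  omega

theorem UM.four_parts (h : UM N d) {k : ℕ} {u : ℤ} (hk : 0 < k) (u1 : 0 < u) (u2 : u < N)
    (K : Finset ℤ) (hK : ∀ c ∈ K, ∃ v, 0 < v ∧ v < N ∧ d u v ≤ k ∧ kap d k v = c) :
    K.card ≤ 4 := by
  classical
  have hs : K ⊆ (K.filter fun c => ∃ v, 0 < v ∧ v < N ∧ d u v < k ∧ kap d k v = c) ∪
      K.filter fun c => ∃ v, 0 < v ∧ v < N ∧ d u v = k ∧ kap d k v = c := by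
    intro c hc
    obtain ⟨v, v1, v2, a, e⟩ := hK c hc
    by_cases o : d u v < k
    · exact mem_union_left _ (mem_filter.2 ⟨hc, v, v1, v2, o, e⟩)
    · exact mem_union_right _ (mem_filter.2 ⟨hc, v, v1, v2, by omega, e⟩)
  have h1 := h.two_parts hk u1 u2
    (K.filter fun c => ∃ v, 0 < v ∧ v < N ∧ d u v < k ∧ kap d k v = c)
    fun c hc => (mem_filter.1 hc).2
  have h2 : (K.filter fun c => ∃ v, 0 < v ∧ v < N ∧ d u v = k ∧ kap d k v = c).card ≤ 2 := by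
    rcases (K.filter fun c => ∃ v, 0 < v ∧ v < N ∧ d u v = k ∧ kap d k v = c).eq_empty_or_nonempty
      with he | ⟨c0, hc0⟩
    · rw [he]
      simp
    · obtain ⟨v0, v1, v2, a0, -⟩ := (mem_filter.1 hc0).2
      refine h.two_parts hk v1 v2 _ fun c hc => ?_
      obtain ⟨v, w1, w2, a, e⟩ := (mem_filter.1 hc).2
      have := h.bin u v0 v u1 u2 v1 v2 w1 w2 (by omega) (by omega)
      exact ⟨v, w1, w2, by omega, e⟩
  have h3 := le_trans (card_le_card hs) (card_union_le _ _)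
  omega

/-- rank in a finite set of keys -/
noncomputable def rk (K : Finset ℤ) (y : ℤ) : ℕ := (K.filter (· < y)).card

theorem rk_lt_iff (K : Finset ℤ) (P : ℤ → Prop) [DecidablePred P]
    (hP : ∀ y ∈ K, ∀ y' ∈ K, y ≤ y' → P y' → P y) {c : ℤ} (hc : c ∈ K) :
    rk K c < (K.filter P).card ↔ P c := by
  constructor
  · intro h
    by_contra hn
    have : K.filter P ⊆ K.filter (· < c) := by
      intro y hy
      obtain ⟨y1, y2⟩ := mem_filter.1 hy
      refine mem_filter.2 ⟨y1, ?_⟩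
      by_contra hl
      exact hn (hP c hc y y1 (by omega) y2)
    have := card_le_card this
    unfold rk at h
    omega
  · intro h
    refine card_lt_card ⟨fun y hy => ?_, fun hs => ?_⟩
    · obtain ⟨y1, y2⟩ := mem_filter.1 hy
      exact mem_filter.2 ⟨y1, hP y y1 c hc y2.le h⟩
    · have := (mem_filter.1 (hs (mem_filter.2 ⟨hc, h⟩))).2
      omega

theorem rk_lt_rk (K : Finset ℤ) {c c' : ℤ} (hc : c ∈ K) : rk K c < rk K c' ↔ c < c' :=
  rk_lt_iff K (· < c') (fun _ _ _ _ a b => lt_of_le_of_lt a b) hc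

end Pool.Agent.Lib.TVA
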